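import Mathlib

/-! Case A1 (00|1 against 00|1) of the cyclic family of MP_a19305_co: separating planes. -/

set_option autoImplicit false

namespace Pool.Agent.K84

/-- value of the form `(A0, A1, A2, B)` at the point with index `t` of the corner `0`
(`K = N ^ (1/6) = 1 / q`) -/
noncomputable def F (K : ℝ) (m : ℤ) (A0 A1 A2 B : ℝ) (t : ℤ) : ℝ :=
  A0 + A1 * K ^ (6 * t + 1 - m) + A2 * K ^ (-(6 * t + 1)) +
    B * (6 * (t : ℝ) + 1 - (m : ℝ) / 2)

lemma E_pos {K : ℝ} (hK : 1 ≤ K) (z : ℤ) : 0 < K ^ z := zpow_pos (by linarith) z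

lemma E_small {K : ℝ} (hK : 1 ≤ K) {z : ℤ} (hz : z ≤ -1) : K ^ z ≤ K⁻¹ := by
  rw [← zpow_neg_one]
  exact zpow_le_zpow_right₀ hK hz

lemma E_large {K : ℝ} (hK : 1 ≤ K) {z : ℤ} (hz : 1 ≤ z) : K ≤ K ^ z := by
  calc K = K ^ (1 : ℤ) := (zpow_one K).symm
    _ ≤ K ^ z := zpow_le_zpow_right₀ hK hz

lemma E_one {K : ℝ} (hK : 1 ≤ K) {z : ℤ} (hz : z ≤ 0) : K ^ z ≤ 1 := by
  calc K ^ z ≤ K ^ (0 : ℤ) := zpow_le_zpow_right₀ hK hz
    _ = 1 := zpow_zero K

lemma F0 {K : ℝ} (hK : 1 ≤ K) (m u v : ℤ) (A0 B : ℝ) (t : ℤ) :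
    F K m A0 (-K ^ (m - 1 - u)) (K ^ (1 + v)) B t =
      A0 + B * (6 * (t : ℝ) + 1 - (m : ℝ) / 2) - K ^ (6 * t - u) + K ^ (v - 6 * t) := by
  have hK0 : K ≠ 0 := by linarith
  have h1 : K ^ (m - 1 - u) * K ^ (6 * t + 1 - m) = K ^ (6 * t - u) := by
    rw [← zpow_add₀ hK0]; congr 1; ring
  have h2 : K ^ (1 + v) * K ^ (-(6 * t + 1)) = K ^ (v - 6 * t) := by
    rw [← zpow_add₀ hK0]; congr 1; ring
  unfold F
  rw [neg_mul, h1, h2]; ring

lemma F1 {K : ℝ} (hK : 1 ≤ K) (m u v : ℤ) (A0 B : ℝ) (t : ℤ) :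
    F K m (-K ^ (m - 1 - u)) (K ^ (1 + v)) A0 B t =
      -K ^ (m - 1 - u) + K ^ (v + 2 + 6 * t - m) + A0 * K ^ (-(6 * t + 1)) +
        B * (6 * (t : ℝ) + 1 - (m : ℝ) / 2) := by
  have hK0 : K ≠ 0 := by linarith
  have h1 : K ^ (1 + v) * K ^ (6 * t + 1 - m) = K ^ (v + 2 + 6 * t - m) := by
    rw [← zpow_add₀ hK0]; congr 1; ring
  unfold F
  rw [h1]

/-- the error terms at the corner `1` -/
lemma err {K : ℝ} {m : ℤ} (hm : 6 ≤ m) (hK : 1000 * (m : ℝ) ≤ K) {A0 B : ℝ}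
    (hA : |A0| ≤ 4 * (m : ℝ)) (hB : |B| ≤ 1) {t : ℤ} (h0 : 0 ≤ t) (h1 : 6 * t + 6 ≤ m) :
    |A0 * K ^ (-(6 * t + 1)) + B * (6 * (t : ℝ) + 1 - (m : ℝ) / 2)| ≤ 4 * (m : ℝ) := by
  have hm' : (6 : ℝ) ≤ m := by exact_mod_cast hm
  have hK1 : 1 ≤ K := by linarith
  have e1 : K ^ (-(6 * t + 1)) ≤ K⁻¹ := E_small hK1 (by omega)
  have e2 : 0 < K ^ (-(6 * t + 1)) := E_pos hK1 _
  have e3 : |A0 * K ^ (-(6 * t + 1))| ≤ 1 := by
    rw [abs_mul, abs_of_pos e2]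
    calc |A0| * K ^ (-(6 * t + 1)) ≤ (4 * (m : ℝ)) * K⁻¹ :=
          mul_le_mul hA e1 e2.le (by linarith)
      _ ≤ K * K⁻¹ := mul_le_mul_of_nonneg_right (by linarith) (inv_nonneg.2 (by linarith))
      _ = 1 := mul_inv_cancel₀ (by linarith)
  have t0 : (0 : ℝ) ≤ t := by exact_mod_cast h0
  have t1 : 6 * (t : ℝ) + 6 ≤ m := by exact_mod_cast h1
  have e4 : |B * (6 * (t : ℝ) + 1 - (m : ℝ) / 2)| ≤ 3 * (m : ℝ) := by
    rw [abs_mul]
    have : |6 * (t : ℝ) + 1 - (m : ℝ) / 2| ≤ 3 * (m : ℝ) := by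
      rw [abs_le]; constructor <;> linarith
    calc |B| * |6 * (t : ℝ) + 1 - (m : ℝ) / 2| ≤ 1 * (3 * (m : ℝ)) :=
          mul_le_mul hB this (abs_nonneg _) (by norm_num)
      _ = 3 * (m : ℝ) := one_mul _
  calc |A0 * K ^ (-(6 * t + 1)) + B * (6 * (t : ℝ) + 1 - (m : ℝ) / 2)|
      ≤ |A0 * K ^ (-(6 * t + 1))| + |B * (6 * (t : ℝ) + 1 - (m : ℝ) / 2)| := abs_add_le _ _
    _ ≤ 4 * (m : ℝ) := by linarith

lemma F1_pos {K : ℝ} {m : ℤ} (hm : 6 ≤ m) (hK : 1000 * (m : ℝ) ≤ K) {A0 B : ℝ}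
    (hA : |A0| ≤ 4 * (m : ℝ)) (hB : |B| ≤ 1) {t : ℤ} (h0 : 0 ≤ t) (h1 : 6 * t + 6 ≤ m) {u v : ℤ}
    (hu : u ≤ m - 2) (h : 2 * m - 3 < u + v + 6 * t) :
    0 < F K m (-K ^ (m - 1 - u)) (K ^ (1 + v)) A0 B t := by
  have hm' : (6 : ℝ) ≤ m := by exact_mod_cast hm
  have hK1 : 1 ≤ K := by linarith
  rw [F1 hK1]
  have e := (abs_le.1 (err hm hK hA hB h0 h1)).1
  have e1 : K ≤ K ^ (m - 1 - u) := E_large hK1 (by omega)
  have e2 : K * K ^ (m - 1 - u) ≤ K ^ (v + 2 + 6 * t - m) := by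
    have : K * K ^ (m - 1 - u) = K ^ (m - 1 - u + 1) := by
      rw [zpow_add₀ (by linarith), zpow_one]; ring
    rw [this]
    exact zpow_le_zpow_right₀ hK1 (by omega)
  have e3 : 2 * K ^ (m - 1 - u) ≤ K * K ^ (m - 1 - u) :=
    mul_le_mul_of_nonneg_right (by linarith) (E_pos hK1 _).le
  linarith

lemma F1_neg {K : ℝ} {m : ℤ} (hm : 6 ≤ m) (hK : 1000 * (m : ℝ) ≤ K) {A0 B : ℝ}
    (hA : |A0| ≤ 4 * (m : ℝ)) (hB : |B| ≤ 1) {t : ℤ} (h0 : 0 ≤ t) (h1 : 6 * t + 6 ≤ m) {u v : ℤ}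
    (hu : u ≤ m - 2) (h : u + v + 6 * t < 2 * m - 3) :
    F K m (-K ^ (m - 1 - u)) (K ^ (1 + v)) A0 B t < 0 := by
  have hm' : (6 : ℝ) ≤ m := by exact_mod_cast hm
  have hK1 : 1 ≤ K := by linarith
  rw [F1 hK1]
  have e := (abs_le.1 (err hm hK hA hB h0 h1)).2
  have e1 : K ≤ K ^ (m - 1 - u) := E_large hK1 (by omega)
  have e2 : K * K ^ (v + 2 + 6 * t - m) ≤ K ^ (m - 1 - u) := by
    have : K * K ^ (v + 2 + 6 * t - m) = K ^ (v + 2 + 6 * t - m + 1) := by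
      rw [zpow_add₀ (by linarith), zpow_one]; ring
    rw [this]
    exact zpow_le_zpow_right₀ hK1 (by omega)
  have e3 : 2 * K ^ (v + 2 + 6 * t - m) ≤ K * K ^ (v + 2 + 6 * t - m) :=
    mul_le_mul_of_nonneg_right (by linarith) (E_pos hK1 _).le
  linarith

/-- disjoint pairs in the corner `0` -/
theorem A1_disj {K : ℝ} {m : ℤ} (hm : 6 ≤ m) (hK : 1000 * (m : ℝ) ≤ K) {a b c p q r : ℤ}
    (a0 : 0 ≤ a) (ab : a < b) (bm : 6 * b + 6 ≤ m) (p0 : 0 ≤ p) (pq : p < q) (qm : 6 * q + 6 ≤ m)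
    (c0 : 0 ≤ c) (cm : 6 * c + 6 ≤ m) (r0 : 0 ≤ r) (rm : 6 * r + 6 ≤ m)
    (h1 : 6 * (a + b + c) = 2 * m - 6) (h2 : 6 * (p + q + r) = 2 * m - 6) (hs : a + b < p + q)
    (hap : a ≠ p) (haq : a ≠ q) (hbp : b ≠ p) (hbq : b ≠ q) :
    ∃ A0 A1 A2 B : ℝ, 0 < F K m A0 A1 A2 B a ∧ 0 < F K m A0 A1 A2 B b ∧
      0 < F K m A1 A2 A0 B c ∧ F K m A0 A1 A2 B p < 0 ∧ F K m A0 A1 A2 B q < 0 ∧
      F K m A1 A2 A0 B r < 0 := by
  have hm' : (6 : ℝ) ≤ m := by exact_mod_cast hm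
  have hK1 : 1 ≤ K := by linarith
  have hε : K⁻¹ ≤ 1 / 1000 := by
    rw [inv_eq_one_div]
    exact one_div_le_one_div_of_le (by norm_num) (by linarith)
  have a0' : (0 : ℝ) ≤ a := by exact_mod_cast a0
  have ab' : (a : ℝ) + 1 ≤ b := by exact_mod_cast ab
  have bm' : 6 * (b : ℝ) + 6 ≤ m := by exact_mod_cast bm
  have p0' : (0 : ℝ) ≤ p := by exact_mod_cast p0
  have pq' : (p : ℝ) + 1 ≤ q := by exact_mod_cast pq
  have qm' : 6 * (q : ℝ) + 6 ≤ m := by exact_mod_cast qm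
  rcases lt_or_gt_of_ne hbp with hb | hb
  · -- a < b < p < q
    refine ⟨1, -K ^ (m - 1 - (6 * b + 3)), K ^ (1 + (6 * a + 3)), 0, ?_, ?_, ?_, ?_, ?_, ?_⟩
    · rw [F0 hK1]
      have e1 := E_small hK1 (z := 6 * a - (6 * b + 3)) (by omega)
      have e2 := E_pos hK1 (6 * a + 3 - 6 * a)
      linarith
    · rw [F0 hK1]
      have e1 := E_small hK1 (z := 6 * b - (6 * b + 3)) (by omega)
      have e2 := E_pos hK1 (6 * a + 3 - 6 * b)
      linarith
    · exact F1_pos hm hK (by rw [abs_one]; linarith) (by rw [abs_zero]; norm_num) c0 cm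
        (by omega) (by omega)
    · rw [F0 hK1]
      have e1 := E_large hK1 (z := 6 * p - (6 * b + 3)) (by omega)
      have e2 := E_small hK1 (z := 6 * a + 3 - 6 * p) (by omega)
      linarith
    · rw [F0 hK1]
      have e1 := E_large hK1 (z := 6 * q - (6 * b + 3)) (by omega)
      have e2 := E_small hK1 (z := 6 * a + 3 - 6 * q) (by omega)
      linarith
    · exact F1_neg hm hK (by rw [abs_one]; linarith) (by rw [abs_zero]; norm_num) r0 rm
        (by omega) (by omega)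
  have hb' : (p : ℝ) + 1 ≤ b := by exact_mod_cast hb
  rcases lt_or_gt_of_ne hap with ha | ha
  · rcases lt_or_gt_of_ne hbq with hq | hq
    · -- a < p < b < q
      refine ⟨-(6 * (p : ℝ) + 4 - m / 2), -K ^ (m - 1 - (6 * b + 3)), K ^ (1 + (6 * a + 3)),
        1, ?_, ?_, ?_, ?_, ?_, ?_⟩
      · rw [F0 hK1]
        have e1 := E_small hK1 (z := 6 * a - (6 * b + 3)) (by omega)
        have e2 := E_large hK1 (z := 6 * a + 3 - 6 * a) (by omega)
        linarith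
      · rw [F0 hK1]
        have e1 := E_small hK1 (z := 6 * b - (6 * b + 3)) (by omega)
        have e2 := E_pos hK1 (6 * a + 3 - 6 * b)
        linarith
      · exact F1_pos hm hK (by rw [abs_le]; constructor <;> linarith)
          (by rw [abs_one]) c0 cm (by omega) (by omega)
      · rw [F0 hK1]
        have e1 := E_pos hK1 (6 * p - (6 * b + 3))
        have e2 := E_small hK1 (z := 6 * a + 3 - 6 * p) (by omega)
        linarith
      · rw [F0 hK1]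
        have e1 := E_large hK1 (z := 6 * q - (6 * b + 3)) (by omega)
        have e2 := E_small hK1 (z := 6 * a + 3 - 6 * q) (by omega)
        linarith
      · exact F1_neg hm hK (by rw [abs_le]; constructor <;> linarith)
          (by rw [abs_one]) r0 rm (by omega) (by omega)
    · -- a < p < q < b
      have hq' : (q : ℝ) + 1 ≤ b := by exact_mod_cast hq
      refine ⟨-(6 * (q : ℝ) + 4 - m / 2), -K ^ (m - 1 - (6 * b + 3)), K ^ (1 + (6 * a + 3)),
        1, ?_, ?_, ?_, ?_, ?_, ?_⟩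
      · rw [F0 hK1]
        have e1 := E_small hK1 (z := 6 * a - (6 * b + 3)) (by omega)
        have e2 := E_large hK1 (z := 6 * a + 3 - 6 * a) (by omega)
        linarith
      · rw [F0 hK1]
        have e1 := E_small hK1 (z := 6 * b - (6 * b + 3)) (by omega)
        have e2 := E_pos hK1 (6 * a + 3 - 6 * b)
        linarith
      · exact F1_pos hm hK (by rw [abs_le]; constructor <;> linarith)
          (by rw [abs_one]) c0 cm (by omega) (by omega)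
      · rw [F0 hK1]
        have e1 := E_pos hK1 (6 * p - (6 * b + 3))
        have e2 := E_small hK1 (z := 6 * a + 3 - 6 * p) (by omega)
        linarith
      · rw [F0 hK1]
        have e1 := E_pos hK1 (6 * q - (6 * b + 3))
        have e2 := E_small hK1 (z := 6 * a + 3 - 6 * q) (by omega)
        linarith
      · exact F1_neg hm hK (by rw [abs_le]; constructor <;> linarith)
          (by rw [abs_one]) r0 rm (by omega) (by omega)
  · -- p < a < b < q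
    have ha' : (p : ℝ) + 1 ≤ a := by exact_mod_cast ha
    have hq : b < q := by omega
    have hq' : (b : ℝ) + 1 ≤ q := by exact_mod_cast hq
    refine ⟨-(6 * (p : ℝ) + 4 - m / 2), -K ^ (m - 1 - (6 * q - 1)), K ^ (1 + (6 * p - 1)),
      1, ?_, ?_, ?_, ?_, ?_, ?_⟩
    · rw [F0 hK1]
      have e1 := E_small hK1 (z := 6 * a - (6 * q - 1)) (by omega)
      have e2 := E_pos hK1 (6 * p - 1 - 6 * a)
      linarith
    · rw [F0 hK1]
      have e1 := E_small hK1 (z := 6 * b - (6 * q - 1)) (by omega)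
      have e2 := E_pos hK1 (6 * p - 1 - 6 * b)
      linarith
    · exact F1_pos hm hK (by rw [abs_le]; constructor <;> linarith)
        (by rw [abs_one]) c0 cm (by omega) (by omega)
    · rw [F0 hK1]
      have e1 := E_pos hK1 (6 * p - (6 * q - 1))
      have e2 := E_small hK1 (z := 6 * p - 1 - 6 * p) (by omega)
      linarith
    · rw [F0 hK1]
      have e1 := E_large hK1 (z := 6 * q - (6 * q - 1)) (by omega)
      have e2 := E_small hK1 (z := 6 * p - 1 - 6 * q) (by omega)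
      linarith
    · exact F1_neg hm hK (by rw [abs_le]; constructor <;> linarith)
        (by rw [abs_one]) r0 rm (by omega) (by omega)

/-- a common vertex `x` in the corner `0` -/
theorem A1_zero {K : ℝ} {m : ℤ} (hm : 6 ≤ m) (hK : 1000 * (m : ℝ) ≤ K) {x b c q r : ℤ}
    (x0 : 0 ≤ x) (xm : 6 * x + 6 ≤ m) (b0 : 0 ≤ b) (bm : 6 * b + 6 ≤ m) (q0 : 0 ≤ q) (qm : 6 * q + 6 ≤ m)
    (c0 : 0 ≤ c) (cm : 6 * c + 6 ≤ m) (r0 : 0 ≤ r) (rm : 6 * r + 6 ≤ m)
    (h1 : 6 * (x + b + c) = 2 * m - 6) (h2 : 6 * (x + q + r) = 2 * m - 6) (hs : b < q)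
    (hxb : x ≠ b) (hxq : x ≠ q) :
    ∃ A0 A1 A2 B : ℝ, F K m A0 A1 A2 B x = 0 ∧ 0 < F K m A0 A1 A2 B b ∧
      0 < F K m A1 A2 A0 B c ∧ F K m A0 A1 A2 B q < 0 ∧ F K m A1 A2 A0 B r < 0 := by
  have hm' : (6 : ℝ) ≤ m := by exact_mod_cast hm
  have hK1 : 1 ≤ K := by linarith
  have hε : K⁻¹ ≤ 1 / 1000 := by
    rw [inv_eq_one_div]
    exact one_div_le_one_div_of_le (by norm_num) (by linarith)
  have x0' : (0 : ℝ) ≤ x := by exact_mod_cast x0
  have xm' : 6 * (x : ℝ) + 6 ≤ m := by exact_mod_cast xm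
  have b0' : (0 : ℝ) ≤ b := by exact_mod_cast b0
  have bm' : 6 * (b : ℝ) + 6 ≤ m := by exact_mod_cast bm
  have q0' : (0 : ℝ) ≤ q := by exact_mod_cast q0
  have qm' : 6 * (q : ℝ) + 6 ≤ m := by exact_mod_cast qm
  have hs' : (b : ℝ) + 1 ≤ q := by exact_mod_cast hs
  rcases lt_or_gt_of_ne hxb with hb | hb
  · -- x < b < q
    have hb' : (x : ℝ) + 1 ≤ b := by exact_mod_cast hb
    have g1 := E_small hK1 (z := 6 * x - (6 * b + 5)) (by omega)
    have g1' := E_pos hK1 (6 * x - (6 * b + 5))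
    have g2 := E_small hK1 (z := 6 * x - 1 - 6 * x) (by omega)
    have g2' := E_pos hK1 (6 * x - 1 - 6 * x)
    refine ⟨-(6 * (x : ℝ) + 1 - m / 2) + K ^ (6 * x - (6 * b + 5)) - K ^ (6 * x - 1 - 6 * x),
      -K ^ (m - 1 - (6 * b + 5)), K ^ (1 + (6 * x - 1)), 1, ?_, ?_, ?_, ?_, ?_⟩
    · rw [F0 hK1]; ring
    · rw [F0 hK1]
      have e1 := E_small hK1 (z := 6 * b - (6 * b + 5)) (by omega)
      have e2 := E_pos hK1 (6 * x - 1 - 6 * b)
      linarith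
    · exact F1_pos hm hK (by rw [abs_le]; constructor <;> linarith)
        (by rw [abs_one]) c0 cm (by omega) (by omega)
    · rw [F0 hK1]
      have e1 := E_large hK1 (z := 6 * q - (6 * b + 5)) (by omega)
      have e2 := E_small hK1 (z := 6 * x - 1 - 6 * q) (by omega)
      linarith
    · exact F1_neg hm hK (by rw [abs_le]; constructor <;> linarith)
        (by rw [abs_one]) r0 rm (by omega) (by omega)
  have hb' : (b : ℝ) + 1 ≤ x := by exact_mod_cast hb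
  rcases lt_or_gt_of_ne hxq with hq | hq
  · -- b < x < q
    have hq' : (x : ℝ) + 1 ≤ q := by exact_mod_cast hq
    have g1 := E_small hK1 (z := 6 * x - (6 * x + 3)) (by omega)
    have g1' := E_pos hK1 (6 * x - (6 * x + 3))
    have g2 := E_small hK1 (z := 6 * b + 3 - 6 * x) (by omega)
    have g2' := E_pos hK1 (6 * b + 3 - 6 * x)
    refine ⟨K ^ (6 * x - (6 * x + 3)) - K ^ (6 * b + 3 - 6 * x),
      -K ^ (m - 1 - (6 * x + 3)), K ^ (1 + (6 * b + 3)), 0, ?_, ?_, ?_, ?_, ?_⟩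
    · rw [F0 hK1]; ring
    · rw [F0 hK1]
      have e1 := E_small hK1 (z := 6 * b - (6 * x + 3)) (by omega)
      have e2 := E_large hK1 (z := 6 * b + 3 - 6 * b) (by omega)
      linarith
    · exact F1_pos hm hK (by rw [abs_le]; constructor <;> linarith)
        (by rw [abs_zero]; norm_num) c0 cm (by omega) (by omega)
    · rw [F0 hK1]
      have e1 := E_large hK1 (z := 6 * q - (6 * x + 3)) (by omega)
      have e2 := E_small hK1 (z := 6 * b + 3 - 6 * q) (by omega)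
      linarith
    · exact F1_neg hm hK (by rw [abs_le]; constructor <;> linarith)
        (by rw [abs_zero]; norm_num) r0 rm (by omega) (by omega)
  · -- b < q < x
    have hq' : (q : ℝ) + 1 ≤ x := by exact_mod_cast hq
    have g1 := E_small hK1 (z := 6 * x - (6 * x + 3)) (by omega)
    have g1' := E_pos hK1 (6 * x - (6 * x + 3))
    have g2 := E_small hK1 (z := 6 * b + 3 - 6 * x) (by omega)
    have g2' := E_pos hK1 (6 * b + 3 - 6 * x)
    refine ⟨-(6 * (x : ℝ) + 1 - m / 2) + K ^ (6 * x - (6 * x + 3)) - K ^ (6 * b + 3 - 6 * x),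
      -K ^ (m - 1 - (6 * x + 3)), K ^ (1 + (6 * b + 3)), 1, ?_, ?_, ?_, ?_, ?_⟩
    · rw [F0 hK1]; ring
    · rw [F0 hK1]
      have e1 := E_small hK1 (z := 6 * b - (6 * x + 3)) (by omega)
      have e2 := E_large hK1 (z := 6 * b + 3 - 6 * b) (by omega)
      linarith
    · exact F1_pos hm hK (by rw [abs_le]; constructor <;> linarith)
        (by rw [abs_one]) c0 cm (by omega) (by omega)
    · rw [F0 hK1]
      have e1 := E_pos hK1 (6 * q - (6 * x + 3))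
      have e2 := E_small hK1 (z := 6 * b + 3 - 6 * q) (by omega)
      linarith
    · exact F1_neg hm hK (by rw [abs_le]; constructor <;> linarith)
        (by rw [abs_one]) r0 rm (by omega) (by omega)

/-- the common vertex `c` in the corner `1` -/
theorem A1_one {K : ℝ} {m : ℤ} (hm : 6 ≤ m) (hK : 1000 * (m : ℝ) ≤ K) {a b c p q : ℤ}
    (a0 : 0 ≤ a) (bm : 6 * b + 6 ≤ m) (c0 : 0 ≤ c) (cm : 6 * c + 6 ≤ m)
    (h1 : 6 * (a + b + c) = 2 * m - 6) (h2 : 6 * (p + q + c) = 2 * m - 6)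
    (ap : a < p) (pq : p < q) (qb : q < b) :
    ∃ A0 A1 A2 B : ℝ, 0 < F K m A0 A1 A2 B a ∧ 0 < F K m A0 A1 A2 B b ∧
      F K m A1 A2 A0 B c = 0 ∧ F K m A0 A1 A2 B p < 0 ∧ F K m A0 A1 A2 B q < 0 := by
  have hm' : (6 : ℝ) ≤ m := by exact_mod_cast hm
  have hK1 : 1 ≤ K := by linarith
  have hK0 : K ≠ 0 := by linarith
  have hε : K⁻¹ ≤ 1 / 1000 := by
    rw [inv_eq_one_div]
    exact one_div_le_one_div_of_le (by norm_num) (by linarith)
  have hεm : 4 * (m : ℝ) * K⁻¹ ≤ 1 / 100 := by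
    rw [← div_eq_mul_inv, div_le_iff₀ (by linarith)]
    linarith
  have a0' : (0 : ℝ) ≤ a := by exact_mod_cast a0
  have ap' : (a : ℝ) + 1 ≤ p := by exact_mod_cast ap
  have pq' : (p : ℝ) + 1 ≤ q := by exact_mod_cast pq
  have qb' : (q : ℝ) + 1 ≤ b := by exact_mod_cast qb
  have bm' : 6 * (b : ℝ) + 6 ≤ m := by exact_mod_cast bm
  set A0 : ℝ := -(6 * (q : ℝ) + 4 - m / 2) with hA0
  set δ : ℝ := A0 * K ^ (-(6 * c + 1)) + 1 * (6 * (c : ℝ) + 1 - (m : ℝ) / 2) with hδ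
  have hδ' : |δ| ≤ 4 * (m : ℝ) := by
    rw [hδ]
    exact err hm hK (by rw [hA0, abs_le]; constructor <;> linarith) (by rw [abs_one]) c0 cm
  have hδ1 := (abs_le.1 hδ').1
  have hδ2 := (abs_le.1 hδ').2
  have key : ∀ t : ℤ, 6 * t + 6 ≤ m → F K m A0 (-K ^ (m - 1 - (6 * b + 2)) - δ)
      (K ^ (1 + (6 * a + 1))) 1 t = A0 + 1 * (6 * (t : ℝ) + 1 - (m : ℝ) / 2) -
        K ^ (6 * t - (6 * b + 2)) + K ^ (6 * a + 1 - 6 * t) - δ * K ^ (6 * t + 1 - m) := by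
    intro t _
    have h := F0 hK1 m (6 * b + 2) (6 * a + 1) A0 1 t
    unfold F at h ⊢
    linear_combination h
  have key2 : ∀ t : ℤ, 6 * t + 6 ≤ m → |δ * K ^ (6 * t + 1 - m)| ≤ 1 / 100 := by
    intro t ht
    have e1 := E_small hK1 (z := 6 * t + 1 - m) (by omega)
    have e2 := E_pos hK1 (6 * t + 1 - m)
    rw [abs_mul, abs_of_pos e2]
    calc |δ| * K ^ (6 * t + 1 - m) ≤ 4 * (m : ℝ) * K⁻¹ :=
          mul_le_mul hδ' e1 e2.le (by linarith)
      _ ≤ 1 / 100 := hεm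
  refine ⟨A0, -K ^ (m - 1 - (6 * b + 2)) - δ, K ^ (1 + (6 * a + 1)), 1, ?_, ?_, ?_, ?_, ?_⟩
  · rw [key a (by omega)]
    have e1 := E_small hK1 (z := 6 * a - (6 * b + 2)) (by omega)
    have e2 := E_large hK1 (z := 6 * a + 1 - 6 * a) (by omega)
    have e3 := (abs_le.1 (key2 a (by omega))).2
    linarith
  · rw [key b (by omega)]
    have e1 := E_small hK1 (z := 6 * b - (6 * b + 2)) (by omega)
    have e2 := E_pos hK1 (6 * a + 1 - 6 * b)
    have e3 := (abs_le.1 (key2 b (by omega))).2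
    linarith
  · have h := F1 hK1 m (6 * b + 2) (6 * a + 1) A0 1 c
    have e : (m - 1 - (6 * b + 2) : ℤ) = 6 * a + 1 + 2 + 6 * c - m := by omega
    rw [e] at h
    rw [e]
    unfold F at h ⊢
    linear_combination h - hδ
  · rw [key p (by omega)]
    have e1 := E_pos hK1 (6 * p - (6 * b + 2))
    have e2 := E_small hK1 (z := 6 * a + 1 - 6 * p) (by omega)
    have e3 := (abs_le.1 (key2 p (by omega))).1
    linarith
  · rw [key q (by omega)]
    have e1 := E_pos hK1 (6 * q - (6 * b + 2))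
    have e2 := E_small hK1 (z := 6 * a + 1 - 6 * q) (by omega)
    have e3 := (abs_le.1 (key2 q (by omega))).1
    linarith

end Pool.Agent.K84
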