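import Pool.Agent.K3C.Defs
import Pool.Agent.K84.A1

/-! Case A1 in the common form of `K3C`. -/

set_option autoImplicit false

namespace Pool.Agent.K84

open Pool.Agent.K3C

lemma zp {N : ℝ} (hN : 0 < N) (z : ℤ) : (N ^ (1 / 6 : ℝ)) ^ z = N ^ ((z : ℝ) / 6) := by
  rw [← Real.rpow_intCast, ← Real.rpow_mul hN.le]
  congr 1
  ring

lemma F_val {N M : ℝ} (hN : 0 < N) {m : ℤ} (hm : (m : ℝ) = 12 * M) (A0 A1 A2 B : ℝ) (k : ℤ)
    {t : ℝ} (ht : t = k + 1 / 6 - M) :
    A0 + A1 * N ^ (t - M) + A2 * N ^ (-t - M) + 6 * B * t =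
      F (N ^ (1 / 6 : ℝ)) m A0 A1 A2 B k := by
  unfold F
  rw [zp hN, zp hN]
  have e1 : ((6 * k + 1 - m : ℤ) : ℝ) / 6 = t - M := by
    push_cast; rw [hm, ht]; ring
  have e2 : ((-(6 * k + 1) : ℤ) : ℝ) / 6 = -t - M := by
    push_cast; rw [ht]; ring
  rw [e1, e2, hm, ht]
  ring

lemma Big.K {N M : ℝ} (h : Big N M) : 1000 * (12 * M) ≤ N ^ (1 / 6 : ℝ) := by
  have h1 := h.2.2
  have h2 : N ^ (1 / 24 : ℝ) * N ^ (1 / 24 : ℝ) ≤ N ^ (1 / 6 : ℝ) := by
    rw [← h.add]
    exact h.mono (by norm_num)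
  have hM := h.1
  have h3 : 1000 * (M + 1) * (1000 * (M + 1)) ≤ N ^ (1 / 24 : ℝ) * N ^ (1 / 24 : ℝ) :=
    mul_le_mul h1 h1 (by linarith) (by linarith)
  nlinarith

/-- the separation from the six values -/
lemma Sp_of {N M a b c p q r A0 A1 A2 B : ℝ}
    (va : a ≠ p → a ≠ q → 0 < val N M A0 A1 A2 B (0, a))
    (vb : b ≠ p → b ≠ q → 0 < val N M A0 A1 A2 B (0, b))
    (vc : c ≠ r → 0 < val N M A0 A1 A2 B (1, c))
    (vp : p ≠ a → p ≠ b → val N M A0 A1 A2 B (0, p) < 0)
    (vq : q ≠ a → q ≠ b → val N M A0 A1 A2 B (0, q) < 0)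
    (vr : r ≠ c → val N M A0 A1 A2 B (1, r) < 0)
    (za : a = p ∨ a = q → val N M A0 A1 A2 B (0, a) = 0)
    (zb : b = p ∨ b = q → val N M A0 A1 A2 B (0, b) = 0)
    (zc : c = r → val N M A0 A1 A2 B (1, c) = 0) :
    Sp N M {((0 : ℕ), a), (0, b), (1, c)} {((0 : ℕ), p), (0, q), (1, r)} := by
  refine ⟨A0, A1, A2, B, ?_, ?_, ?_⟩
  · intro v hv hv'
    simp only [Set.mem_insert_iff, Set.mem_singleton_iff] at hv hv'
    rcases hv with rfl | rfl | rfl
    · simp only [Prod.mk.injEq, true_and, zero_ne_one, false_and, or_false, not_or] at hv'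
      exact va hv'.1 hv'.2
    · simp only [Prod.mk.injEq, true_and, zero_ne_one, false_and, or_false, not_or] at hv'
      exact vb hv'.1 hv'.2
    · simp only [Prod.mk.injEq, true_and, one_ne_zero, false_and, false_or] at hv'
      exact vc hv'
  · intro v hv hv'
    simp only [Set.mem_insert_iff, Set.mem_singleton_iff] at hv hv'
    rcases hv with rfl | rfl | rfl
    · simp only [Prod.mk.injEq, true_and, zero_ne_one, false_and, or_false, not_or] at hv'
      exact vp hv'.1 hv'.2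
    · simp only [Prod.mk.injEq, true_and, zero_ne_one, false_and, or_false, not_or] at hv'
      exact vq hv'.1 hv'.2
    · simp only [Prod.mk.injEq, true_and, one_ne_zero, false_and, false_or] at hv'
      exact vr hv'
  · intro v hv hv'
    simp only [Set.mem_insert_iff, Set.mem_singleton_iff] at hv hv'
    rcases hv with rfl | rfl | rfl
    · simp only [Prod.mk.injEq, true_and, zero_ne_one, false_and, or_false] at hv'
      exact za hv'
    · simp only [Prod.mk.injEq, true_and, zero_ne_one, false_and, or_false] at hv'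
      exact zb hv'
    · simp only [Prod.mk.injEq, true_and, one_ne_zero, false_and, false_or] at hv'
      exact zc hv'

/-- case A1 with `a + b ≤ p + q`, and `a < p` if `a + b = p + q` -/
theorem caseA1_le {N M : ℝ} (hB : Big N M) {a b c p q r : ℕ}
    (bm : (b : ℝ) + 1 ≤ 2 * M) (cm : (c : ℝ) + 1 ≤ 2 * M)
    (qm : (q : ℝ) + 1 ≤ 2 * M) (rm : (r : ℝ) + 1 ≤ 2 * M)
    (ab : a < b) (pq : p < q)
    (h1 : ((a : ℝ) + 1 / 6 - M) + (b + 1 / 6 - M) + (c + 1 / 6 - M) = M - 1 / 2)
    (h2 : ((p : ℝ) + 1 / 6 - M) + (q + 1 / 6 - M) + (r + 1 / 6 - M) = M - 1 / 2)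
    (hs : a + b < p + q ∨ (a + b = p + q ∧ a < p)) :
    Sp N M {((0 : ℕ), (a : ℝ) + 1 / 6 - M), (0, (b : ℝ) + 1 / 6 - M), (1, (c : ℝ) + 1 / 6 - M)}
      {((0 : ℕ), (p : ℝ) + 1 / 6 - M), (0, (q : ℝ) + 1 / 6 - M), (1, (r : ℝ) + 1 / 6 - M)} := by
  obtain ⟨m, hmd⟩ : ∃ m : ℤ, m = 3 * (a + b + c + 1) := ⟨_, rfl⟩
  have hm : (m : ℝ) = 12 * M := by rw [hmd]; push_cast; linarith
  have hN := hB.N_pos
  have hK : 1000 * (m : ℝ) ≤ N ^ (1 / 6 : ℝ) := by rw [hm]; exact Big.K hB
  have hm6 : 6 ≤ m := by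
    have : (6 : ℝ) ≤ m := by rw [hm]; linarith [hB.1]
    exact_mod_cast this
  have bm' : 6 * (b : ℤ) + 6 ≤ m := by
    have : 6 * (b : ℝ) + 6 ≤ m := by rw [hm]; linarith
    exact_mod_cast this
  have cm' : 6 * (c : ℤ) + 6 ≤ m := by
    have : 6 * (c : ℝ) + 6 ≤ m := by rw [hm]; linarith
    exact_mod_cast this
  have qm' : 6 * (q : ℤ) + 6 ≤ m := by
    have : 6 * (q : ℝ) + 6 ≤ m := by rw [hm]; linarith
    exact_mod_cast this
  have rm' : 6 * (r : ℤ) + 6 ≤ m := by
    have : 6 * (r : ℝ) + 6 ≤ m := by rw [hm]; linarith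
    exact_mod_cast this
  have h1' : 6 * ((a : ℤ) + b + c) = 2 * m - 6 := by
    have : 6 * ((a : ℝ) + b + c) = 2 * m - 6 := by rw [hm]; linarith
    exact_mod_cast this
  have h2' : 6 * ((p : ℤ) + q + r) = 2 * m - 6 := by
    have : 6 * ((p : ℝ) + q + r) = 2 * m - 6 := by rw [hm]; linarith
    exact_mod_cast this
  have V0 : ∀ (A0 A1 A2 B : ℝ) (k : ℕ), val N M A0 A1 A2 (6 * B) (0, (k : ℝ) + 1 / 6 - M) =
      F (N ^ (1 / 6 : ℝ)) m A0 A1 A2 B (k : ℤ) := by
    intro A0 A1 A2 B k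
    rw [val_zero]
    exact F_val hN hm A0 A1 A2 B k (by push_cast; ring)
  have V1 : ∀ (A0 A1 A2 B : ℝ) (k : ℕ), val N M A0 A1 A2 (6 * B) (1, (k : ℝ) + 1 / 6 - M) =
      F (N ^ (1 / 6 : ℝ)) m A1 A2 A0 B (k : ℤ) := by
    intro A0 A1 A2 B k
    rw [val_one]
    exact F_val hN hm A1 A2 A0 B k (by push_cast; ring)
  have inj : ∀ k l : ℕ, (k : ℝ) + 1 / 6 - M = (l : ℝ) + 1 / 6 - M → k = l := by
    intro k l h
    have : (k : ℝ) = l := by linarith
    exact_mod_cast this
  rcases hs with hs | ⟨hs, hap⟩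
  · have hcr : c ≠ r := by omega
    by_cases e1 : a = p
    · subst e1
      obtain ⟨A0, A1, A2, B, g1, g2, g3, g4, g5⟩ := A1_zero (x := a) (b := b) (c := c) (q := q)
        (r := r) hm6 hK (by omega) (by omega) (by omega) bm' (by omega) qm' (by omega) cm'
        (by omega) rm' h1' h2' (by omega) (by omega) (by omega)
      refine Sp_of (A0 := A0) (A1 := A1) (A2 := A2) (B := 6 * B) ?_ ?_ ?_ ?_ ?_ ?_ ?_ ?_ ?_
      · intro h; exact absurd rfl h
      · intro _ _; rw [V0]; exact g2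
      · intro _; rw [V1]; exact g3
      · intro h; exact absurd rfl h
      · intro _ _; rw [V0]; exact g4
      · intro _; rw [V1]; exact g5
      · intro _; rw [V0]; exact g1
      · rintro (h | h)
        · have := inj _ _ h; omega
        · have := inj _ _ h; omega
      · intro h; exact absurd (inj _ _ h) hcr
    by_cases e2 : b = p
    · subst e2
      obtain ⟨A0, A1, A2, B, g1, g2, g3, g4, g5⟩ := A1_zero (x := b) (b := a) (c := c) (q := q)
        (r := r) hm6 hK (by omega) (by omega) (by omega) (by omega) (by omega) qm' (by omega) cm'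
        (by omega) rm' (by omega) h2' (by omega) (by omega) (by omega)
      refine Sp_of (A0 := A0) (A1 := A1) (A2 := A2) (B := 6 * B) ?_ ?_ ?_ ?_ ?_ ?_ ?_ ?_ ?_
      · intro _ _; rw [V0]; exact g2
      · intro h; exact absurd rfl h
      · intro _; rw [V1]; exact g3
      · intro _ h; exact absurd rfl h
      · intro _ _; rw [V0]; exact g4
      · intro _; rw [V1]; exact g5
      · rintro (h | h)
        · have := inj _ _ h; omega
        · have := inj _ _ h; omega
      · intro _; rw [V0]; exact g1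
      · intro h; exact absurd (inj _ _ h) hcr
    by_cases e3 : b = q
    · subst e3
      obtain ⟨A0, A1, A2, B, g1, g2, g3, g4, g5⟩ := A1_zero (x := b) (b := a) (c := c) (q := p)
        (r := r) hm6 hK (by omega) (by omega) (by omega) (by omega) (by omega) (by omega)
        (by omega) cm' (by omega) rm' (by omega) (by omega) (by omega) (by omega) (by omega)
      refine Sp_of (A0 := A0) (A1 := A1) (A2 := A2) (B := 6 * B) ?_ ?_ ?_ ?_ ?_ ?_ ?_ ?_ ?_
      · intro _ _; rw [V0]; exact g2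
      · intro _ h; exact absurd rfl h
      · intro _; rw [V1]; exact g3
      · intro _ _; rw [V0]; exact g4
      · intro _ h; exact absurd rfl h
      · intro _; rw [V1]; exact g5
      · rintro (h | h)
        · have := inj _ _ h; omega
        · have := inj _ _ h; omega
      · intro _; rw [V0]; exact g1
      · intro h; exact absurd (inj _ _ h) hcr
    · have e4 : a ≠ q := by omega
      obtain ⟨A0, A1, A2, B, g1, g2, g3, g4, g5, g6⟩ := A1_disj (a := a) (b := b) (c := c)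
        (p := p) (q := q) (r := r) hm6 hK (by omega) (by omega) bm' (by omega) (by omega) qm'
        (by omega) cm' (by omega) rm' h1' h2' (by omega) (by omega) (by omega) (by omega)
        (by omega)
      refine Sp_of (A0 := A0) (A1 := A1) (A2 := A2) (B := 6 * B) ?_ ?_ ?_ ?_ ?_ ?_ ?_ ?_ ?_
      · intro _ _; rw [V0]; exact g1
      · intro _ _; rw [V0]; exact g2
      · intro _; rw [V1]; exact g3
      · intro _ _; rw [V0]; exact g4
      · intro _ _; rw [V0]; exact g5
      · intro _; rw [V1]; exact g6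
      · rintro (h | h)
        · exact absurd (inj _ _ h) e1
        · exact absurd (inj _ _ h) e4
      · rintro (h | h)
        · exact absurd (inj _ _ h) e2
        · exact absurd (inj _ _ h) e3
      · intro h; exact absurd (inj _ _ h) hcr
  · have hcr : c = r := by omega
    subst hcr
    obtain ⟨A0, A1, A2, B, g1, g2, g3, g4, g5⟩ := A1_one (a := a) (b := b) (c := c) (p := p)
      (q := q) hm6 hK (by omega) bm' (by omega) cm' h1' h2' (by omega) (by omega) (by omega)
    refine Sp_of (A0 := A0) (A1 := A1) (A2 := A2) (B := 6 * B) ?_ ?_ ?_ ?_ ?_ ?_ ?_ ?_ ?_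
    · intro _ _; rw [V0]; exact g1
    · intro _ _; rw [V0]; exact g2
    · intro h; exact absurd rfl h
    · intro _ _; rw [V0]; exact g4
    · intro _ _; rw [V0]; exact g5
    · intro h; exact absurd rfl h
    · rintro (h | h)
      · have := inj _ _ h; omega
      · have := inj _ _ h; omega
    · rintro (h | h)
      · have := inj _ _ h; omega
      · have := inj _ _ h; omega
    · intro _; rw [V1]; exact g3

/-- case A1 (00|1, 00|1) -/
theorem caseA1 {N M a b c p q r : ℝ} (hB : Big N M) (ha : G M a) (hb : G M b) (hc : G M c)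
    (hp : G M p) (hq : G M q) (hr : G M r) (hab : a < b) (hpq : p < q)
    (h1 : a + b + c = M - 1 / 2) (h2 : p + q + r = M - 1 / 2) (hne : ¬ (a = p ∧ b = q)) :
    Sp N M {((0 : ℕ), a), (0, b), (1, c)} {((0 : ℕ), p), (0, q), (1, r)} := by
  obtain ⟨ka, ma, rfl⟩ := ha
  obtain ⟨kb, mb, rfl⟩ := hb
  obtain ⟨kc, mc, rfl⟩ := hc
  obtain ⟨kp, mp, rfl⟩ := hp
  obtain ⟨kq, mq, rfl⟩ := hq
  obtain ⟨kr, mr, rfl⟩ := hr
  have hab' : ka < kb := by
    have : (ka : ℝ) < kb := by linarith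
    exact_mod_cast this
  have hpq' : kp < kq := by
    have : (kp : ℝ) < kq := by linarith
    exact_mod_cast this
  have hne' : ¬ (ka = kp ∧ kb = kq) := by
    rintro ⟨rfl, rfl⟩
    exact hne ⟨rfl, rfl⟩
  by_cases h : ka + kb < kp + kq ∨ (ka + kb = kp + kq ∧ ka < kp)
  · exact caseA1_le hB mb mc mq mr hab' hpq' h1 h2 h
  · exact (caseA1_le hB mq mr mb mc hpq' hab' h2 h1 (by omega)).symm

end Pool.Agent.K84
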